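import Mathlib

/-!
# MP_41928e_lc: an edge-interdiction path game without a Markovian Nash equilibrium

A layered graph with layers of sizes `1, 3, 3, 2, 2`, `18` edges and `18` paths. The value of the
game is `7/16` and the defender has a unique equilibrium strategy, which is not Markovian.
-/

namespace Pool.Agent.Results.MP_41928e_lc.NoMarkovianNE

/-- A layered graph on the vertex type `V`, with `k + 1 > 1` nonempty layers, all edges from a
layer to the next one, and a first layer consisting of the single source `s`. -/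
structure LayeredGraph (V : Type) where
  k : ℕ
  one_le_k : 1 ≤ k
  layer : V → Fin (k + 1)
  layer_surj : Function.Surjective layer
  E : V → V → Prop
  E_layer : ∀ u v, E u v → (layer v : ℕ) = layer u + 1
  s : V
  layer_zero : ∀ v, layer v = 0 ↔ v = s

/-- Directed paths from the source to a vertex of the last layer. -/
def LayeredGraph.Path {V : Type} (G : LayeredGraph V) : Type :=
  {p : Fin (G.k + 1) → V // p 0 = G.s ∧ ∀ i : Fin G.k, G.E (p i.castSucc) (p i.succ)}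

noncomputable instance {V : Type} [Fintype V] (G : LayeredGraph V) : Fintype G.Path := by
  classical
  exact Fintype.ofInjective (fun p : G.Path => p.1) Subtype.val_injective

/-- The two paths have no edge in common. -/
def LayeredGraph.NoCommonEdge {V : Type} (G : LayeredGraph V) (p q : G.Path) : Prop :=
  ∀ i j : Fin G.k, (p.1 i.castSucc, p.1 i.succ) ≠ (q.1 j.castSucc, q.1 j.succ)

open Classical in
/-- The payoff of the attacker for pure strategies: `1` if the paths have no common edge. -/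
noncomputable def LayeredGraph.u {V : Type} (G : LayeredGraph V) (p q : G.Path) : ℝ :=
  if G.NoCommonEdge p q then 1 else 0

/-- Mixed strategies: probability distributions on the set of paths. -/
def LayeredGraph.IsMixed {V : Type} [Fintype V] (G : LayeredGraph V) (x : G.Path → ℝ) : Prop :=
  (∀ p, 0 ≤ x p) ∧ ∑ p, x p = 1

/-- The expected payoff of the attacker. -/
noncomputable def LayeredGraph.payoff {V : Type} [Fintype V] (G : LayeredGraph V)
    (xd xa : G.Path → ℝ) : ℝ := ∑ p, ∑ q, xd p * xa q * G.u p q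

/-- `(xd, xa)` is a Nash equilibrium. -/
def LayeredGraph.IsNash {V : Type} [Fintype V] (G : LayeredGraph V)
    (xd xa : G.Path → ℝ) : Prop :=
  G.IsMixed xd ∧ G.IsMixed xa ∧ (∀ y, G.IsMixed y → G.payoff xd y ≤ G.payoff xd xa) ∧
    ∀ y, G.IsMixed y → G.payoff xd xa ≤ G.payoff y xa

open Classical in
/-- The mixed strategy `x` is Markovian: there are transition probabilities `q u v ≥ 0` on the
edges, with sum `1` over the out-edges of each vertex that has out-edges and is reached, such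
that `x p` is the product of the transition probabilities along `p`. -/
def LayeredGraph.IsMarkovian {V : Type} [Fintype V] (G : LayeredGraph V)
    (x : G.Path → ℝ) : Prop :=
  ∃ q : V → V → ℝ, (∀ a b, 0 ≤ q a b) ∧
    (∀ a, (∃ b, G.E a b) → (∃ p : G.Path, 0 < x p ∧ ∃ i, p.1 i = a) →
      ∑ b ∈ Finset.univ.filter (fun b => G.E a b), q a b = 1) ∧
    ∀ p : G.Path, x p = ∏ i : Fin G.k, q (p.1 i.castSucc) (p.1 i.succ)

/-- the out-neighbours -/
def nb : Fin 11 → List (Fin 11) :=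
  ![[1, 2, 3], [4, 5, 6], [5, 6], [4, 5], [7], [8], [7, 8], [9, 10], [9, 10], [], []]

/-- The graph: `0 → 1,2,3`; `1 → 4,5,6`; `2 → 5,6`; `3 → 4,5`; `4 → 7`; `5 → 8`; `6 → 7,8`;
`7 → 9,10`; `8 → 9,10`. -/
def G : LayeredGraph (Fin 11) where
  k := 4
  one_le_k := by norm_num
  layer := ![0, 1, 1, 1, 2, 2, 2, 3, 3, 4, 4]
  layer_surj := by unfold Function.Surjective; decide +kernel
  E a b := b ∈ nb a
  E_layer := by decide +kernel
  s := 0
  layer_zero := by decide +kernel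

/-- the 18 paths -/
def pl : Fin 18 → Fin 5 → Fin 11 := ![
  ![0, 1, 4, 7, 9],
  ![0, 1, 4, 7, 10],
  ![0, 1, 5, 8, 9],
  ![0, 1, 5, 8, 10],
  ![0, 1, 6, 7, 9],
  ![0, 1, 6, 7, 10],
  ![0, 1, 6, 8, 9],
  ![0, 1, 6, 8, 10],
  ![0, 2, 5, 8, 9],
  ![0, 2, 5, 8, 10],
  ![0, 2, 6, 7, 9],
  ![0, 2, 6, 7, 10],
  ![0, 2, 6, 8, 9],
  ![0, 2, 6, 8, 10],
  ![0, 3, 4, 7, 9],
  ![0, 3, 4, 7, 10],
  ![0, 3, 5, 8, 9],
  ![0, 3, 5, 8, 10]]

/-- the payoff matrix -/
def M : Fin 18 → Fin 18 → ℕ := ![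
  ![0, 0, 0, 0, 0, 0, 0, 0, 1, 1, 0, 1, 1, 1, 0, 0, 1, 1],
  ![0, 0, 0, 0, 0, 0, 0, 0, 1, 1, 1, 0, 1, 1, 0, 0, 1, 1],
  ![0, 0, 0, 0, 0, 0, 0, 0, 0, 0, 1, 1, 0, 1, 1, 1, 0, 0],
  ![0, 0, 0, 0, 0, 0, 0, 0, 0, 0, 1, 1, 1, 0, 1, 1, 0, 0],
  ![0, 0, 0, 0, 0, 0, 0, 0, 1, 1, 0, 0, 1, 1, 0, 1, 1, 1],
  ![0, 0, 0, 0, 0, 0, 0, 0, 1, 1, 0, 0, 1, 1, 1, 0, 1, 1],
  ![0, 0, 0, 0, 0, 0, 0, 0, 0, 1, 1, 1, 0, 0, 1, 1, 0, 1],
  ![0, 0, 0, 0, 0, 0, 0, 0, 1, 0, 1, 1, 0, 0, 1, 1, 1, 0],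
  ![1, 1, 0, 0, 1, 1, 0, 1, 0, 0, 0, 0, 0, 0, 1, 1, 0, 0],
  ![1, 1, 0, 0, 1, 1, 1, 0, 0, 0, 0, 0, 0, 0, 1, 1, 0, 0],
  ![0, 1, 1, 1, 0, 0, 1, 1, 0, 0, 0, 0, 0, 0, 0, 1, 1, 1],
  ![1, 0, 1, 1, 0, 0, 1, 1, 0, 0, 0, 0, 0, 0, 1, 0, 1, 1],
  ![1, 1, 0, 1, 1, 1, 0, 0, 0, 0, 0, 0, 0, 0, 1, 1, 0, 1],
  ![1, 1, 1, 0, 1, 1, 0, 0, 0, 0, 0, 0, 0, 0, 1, 1, 1, 0],
  ![0, 0, 1, 1, 0, 1, 1, 1, 1, 1, 0, 1, 1, 1, 0, 0, 0, 0],
  ![0, 0, 1, 1, 1, 0, 1, 1, 1, 1, 1, 0, 1, 1, 0, 0, 0, 0],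
  ![1, 1, 0, 0, 1, 1, 0, 1, 0, 0, 1, 1, 0, 1, 0, 0, 0, 0],
  ![1, 1, 0, 0, 1, 1, 1, 0, 0, 0, 1, 1, 1, 0, 0, 0, 0, 0]]

/-- sixteen times the optimal strategy of the defender -/
def dst : Fin 18 → ℕ := ![2, 2, 0, 0, 0, 0, 1, 1, 2, 2, 1, 1, 0, 0, 1, 1, 1, 1]

lemma pl_ok : ∀ i : Fin 18, pl i 0 = 0 ∧ ∀ j : Fin 4, pl i j.succ ∈ nb (pl i j.castSucc) := by
  decide +kernel

/-- the paths of `G` -/
def path (i : Fin 18) : G.Path := ⟨pl i, (pl_ok i).1, (pl_ok i).2⟩

lemma path_inj : Function.Injective path := by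
  intro i j h
  have h2 : pl i = pl j := congrArg Subtype.val h
  have key : ∀ i j, pl i = pl j → i = j := by decide +kernel
  exact key i j h2

lemma enum : ∀ a ∈ nb 0, ∀ b ∈ nb a, ∀ c ∈ nb b, ∀ d ∈ nb c,
    ∃ i : Fin 18, pl i = ![0, a, b, c, d] := by
  decide +kernel

lemma path_surj : Function.Surjective path := by
  rintro ⟨p, h0, h⟩
  change Fin 5 → Fin 11 at p
  have e0 : p 0 = 0 := h0
  have e1 : p 1 ∈ nb (p 0) := h (0 : Fin 4)
  have e2 : p 2 ∈ nb (p 1) := h (1 : Fin 4)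
  have e3 : p 3 ∈ nb (p 2) := h (2 : Fin 4)
  have e4 : p 4 ∈ nb (p 3) := h (3 : Fin 4)
  rw [e0] at e1
  obtain ⟨i, hi⟩ := enum _ e1 _ e2 _ e3 _ e4
  refine ⟨i, Subtype.ext ?_⟩
  change pl i = p
  rw [hi]
  funext j
  fin_cases j
  · exact e0.symm
  · rfl
  · rfl
  · rfl
  · rfl

lemma sum_path (f : G.Path → ℝ) : ∑ p, f p = ∑ i, f (path i) :=
  (Function.Bijective.sum_comp ⟨path_inj, path_surj⟩ f).symm

lemma M_ok : ∀ i j : Fin 18,
    (M i j = 1 ∧ ∀ a b : Fin 4, (pl i a.castSucc, pl i a.succ) ≠ (pl j b.castSucc, pl j b.succ)) ∨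
    (M i j = 0 ∧ ¬ ∀ a b : Fin 4,
      (pl i a.castSucc, pl i a.succ) ≠ (pl j b.castSucc, pl j b.succ)) := by
  decide +kernel

lemma u_eq (i j : Fin 18) : G.u (path i) (path j) = M i j := by
  unfold LayeredGraph.u
  rcases M_ok i j with ⟨h1, h2⟩ | ⟨h1, h2⟩
  · rw [h1, if_pos]
    · norm_num
    · exact h2
  · rw [h1, if_neg]
    · norm_num
    · exact h2

lemma payoff_eq (x y : G.Path → ℝ) :
    G.payoff x y = ∑ i, ∑ j, x (path i) * y (path j) * M i j := by
  unfold LayeredGraph.payoff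
  rw [sum_path]
  refine Finset.sum_congr rfl fun i _ => ?_
  rw [sum_path]
  exact Finset.sum_congr rfl fun j _ => by rw [u_eq]

lemma dst_sum : ∑ i, dst i = 16 := by decide +kernel

lemma dst_le : ∀ j : Fin 18, ∑ i, dst i * M i j ≤ 7 := by decide +kernel

/-- the pure strategy `path j` -/
noncomputable def pure (j : Fin 18) (p : G.Path) : ℝ := by
  classical exact if p = path j then 1 else 0

lemma pure_path (i j : Fin 18) : pure j (path i) = if i = j then 1 else 0 := by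
  classical
  unfold pure
  by_cases h : i = j
  · subst h; simp
  · rw [if_neg (fun e => h (path_inj e)), if_neg h]

lemma pure_mixed (j : Fin 18) : G.IsMixed (pure j) := by
  constructor
  · intro p
    obtain ⟨i, rfl⟩ := path_surj p
    rw [pure_path]; split_ifs <;> norm_num
  · rw [sum_path]
    simp [pure_path]

/-- the index of a path -/
noncomputable def idx (p : G.Path) : Fin 18 := (path_surj p).choose

lemma idx_path (i : Fin 18) : idx (path i) = i := path_inj (path_surj (path i)).choose_spec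

/-- the optimal strategy of the defender -/
noncomputable def opt (p : G.Path) : ℝ := (dst (idx p) : ℝ) / 16

lemma opt_mixed : G.IsMixed opt := by
  constructor
  · intro p; unfold opt; positivity
  · rw [sum_path]
    simp only [opt, idx_path]
    rw [← Finset.sum_div]
    have h : ((∑ i, dst i : ℕ) : ℝ) = 16 := by rw [dst_sum]; norm_num
    push_cast at h
    rw [h]; norm_num

lemma payoff_opt (xa : G.Path → ℝ) (h2 : G.IsMixed xa) : G.payoff opt xa ≤ 7 / 16 := by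
  rw [payoff_eq, Finset.sum_comm]
  have key : ∀ j' : Fin 18, ∑ i, opt (path i) * xa (path j') * M i j' ≤
      xa (path j') * (7 / 16) := by
    intro j'
    have e : ∑ i, opt (path i) * xa (path j') * M i j' =
        xa (path j') * ((∑ i, (dst i : ℝ) * M i j') / 16) := by
      rw [Finset.sum_div, Finset.mul_sum]
      refine Finset.sum_congr rfl fun i _ => ?_
      simp only [opt, idx_path]; ring
    rw [e]
    apply mul_le_mul_of_nonneg_left _ (h2.1 _)
    have d : ((∑ i, dst i * M i j' : ℕ) : ℝ) ≤ 7 := by exact_mod_cast dst_le j'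
    push_cast at d
    linarith
  calc ∑ j', ∑ i, opt (path i) * xa (path j') * M i j'
      ≤ ∑ j', xa (path j') * (7 / 16) := Finset.sum_le_sum fun j' _ => key j'
    _ = 7 / 16 := by
      rw [← Finset.sum_mul, ← sum_path, h2.2]; norm_num

/-- sixteen times an optimal strategy of the attacker -/
def ast : Fin 18 → ℕ := ![2, 0, 0, 0, 0, 0, 1, 1, 0, 0, 1, 1, 2, 2, 1, 3, 1, 1]

lemma ast_sum : ∑ i, ast i = 16 := by decide +kernel

lemma ast_ge : ∀ i : Fin 18, 7 ≤ ∑ j, ast j * M i j := by decide +kernel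

/-- an optimal strategy of the attacker -/
noncomputable def att (p : G.Path) : ℝ := (ast (idx p) : ℝ) / 16

lemma att_mixed : G.IsMixed att := by
  constructor
  · intro p; unfold att; positivity
  · rw [sum_path]
    simp only [att, idx_path]
    rw [← Finset.sum_div]
    have h : ((∑ i, ast i : ℕ) : ℝ) = 16 := by rw [ast_sum]; norm_num
    push_cast at h
    rw [h]; norm_num

lemma payoff_att (xd : G.Path → ℝ) (h2 : G.IsMixed xd) : 7 / 16 ≤ G.payoff xd att := by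
  rw [payoff_eq]
  have key : ∀ i : Fin 18, xd (path i) * (7 / 16) ≤
      ∑ j, xd (path i) * att (path j) * M i j := by
    intro i
    have e : ∑ j, xd (path i) * att (path j) * M i j =
        xd (path i) * ((∑ j, (ast j : ℝ) * M i j) / 16) := by
      rw [Finset.sum_div, Finset.mul_sum]
      refine Finset.sum_congr rfl fun j _ => ?_
      simp only [att, idx_path]; ring
    rw [e]
    apply mul_le_mul_of_nonneg_left _ (h2.1 _)
    have d : (7 : ℝ) ≤ ((∑ j, ast j * M i j : ℕ) : ℝ) := by exact_mod_cast ast_ge i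
    push_cast at d
    linarith
  calc (7 / 16 : ℝ) = ∑ i, xd (path i) * (7 / 16) := by
        rw [← Finset.sum_mul, ← sum_path, h2.2]; norm_num
    _ ≤ _ := Finset.sum_le_sum fun i _ => key i

/-- a Nash equilibrium -/
lemma nash : G.IsNash opt att :=
  ⟨opt_mixed, att_mixed,
    fun y hy => (payoff_opt y hy).trans (payoff_att opt opt_mixed),
    fun y hy => (payoff_opt att att_mixed).trans (payoff_att y hy)⟩

lemma bound (xd xa : G.Path → ℝ) (h : G.IsNash xd xa) (j : Fin 18) :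
    ∑ i, xd (path i) * M i j ≤ 7 / 16 := by
  obtain ⟨h1, h2, h3, h4⟩ := h
  have a1 := h3 _ (pure_mixed j)
  have a2 := h4 _ opt_mixed
  have a3 : G.payoff xd (pure j) = ∑ i, xd (path i) * M i j := by
    rw [payoff_eq]
    refine Finset.sum_congr rfl fun i _ => ?_
    simp [pure_path]
  have a4 := payoff_opt xa h2
  linarith

/-- duality: a mixed strategy `l / ∑ l` of the attacker tested against `y` -/
lemma dual (y : Fin 18 → ℝ) (hb : ∀ j, ∑ i, y i * M i j ≤ 7 / 16) (hs : ∑ i, y i = 1)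
    (l : Fin 18 → ℕ) :
    0 ≤ ∑ i, y i * ((7 * ∑ j, (l j : ℤ) - 16 * ∑ j, (l j : ℤ) * (M i j : ℤ) : ℤ) : ℝ) := by
  have e : ∑ i, y i * ((7 * ∑ j, (l j : ℤ) - 16 * ∑ j, (l j : ℤ) * (M i j : ℤ) : ℤ) : ℝ) =
      16 * ∑ j, (l j : ℝ) * (7 / 16 - ∑ i, y i * M i j) := by
    push_cast
    simp only [mul_sub, Finset.sum_sub_distrib, Finset.mul_sum]
    congr 1
    · rw [Finset.sum_comm]
      refine Finset.sum_congr rfl fun j _ => ?_
      rw [← Finset.sum_mul, hs]; ring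
    · rw [Finset.sum_comm]
      refine Finset.sum_congr rfl fun j _ => ?_
      refine Finset.sum_congr rfl fun i _ => ?_
      ring
  rw [e]
  refine mul_nonneg (by norm_num) (Finset.sum_nonneg fun j _ => ?_)
  exact mul_nonneg (Nat.cast_nonneg _) (by linarith [hb j])

/-- if the tested strategy beats `7/16` off the path `t`, then `y t > 0` -/
lemma pos_of (y : Fin 18 → ℝ) (hb : ∀ j, ∑ i, y i * M i j ≤ 7 / 16) (hn : ∀ i, 0 ≤ y i)
    (hs : ∑ i, y i = 1) (l : Fin 18 → ℕ) (t : Fin 18)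
    (h : ∀ i, i ≠ t → 7 * ∑ j, (l j : ℤ) - 16 * ∑ j, (l j : ℤ) * (M i j : ℤ) ≤ -1) :
    0 < y t := by
  by_contra hc
  have ht : y t = 0 := le_antisymm (not_lt.1 hc) (hn t)
  have d := dual y hb hs l
  have : ∑ i, y i * ((7 * ∑ j, (l j : ℤ) - 16 * ∑ j, (l j : ℤ) * (M i j : ℤ) : ℤ) : ℝ) ≤
      ∑ i, y i * (-1) := by
    refine Finset.sum_le_sum fun i _ => ?_
    by_cases hi : i = t
    · rw [hi, ht]; simp
    · apply mul_le_mul_of_nonneg_left _ (hn i)
      exact_mod_cast h i hi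
  rw [← Finset.sum_mul, hs] at this
  linarith

/-- if the tested strategy gives at least `7/16` and more than that against the path `t`,
then `y t = 0` -/
lemma zero_of (y : Fin 18 → ℝ) (hb : ∀ j, ∑ i, y i * M i j ≤ 7 / 16) (hn : ∀ i, 0 ≤ y i)
    (hs : ∑ i, y i = 1) (l : Fin 18 → ℕ) (t : Fin 18)
    (h : ∀ i, 7 * ∑ j, (l j : ℤ) - 16 * ∑ j, (l j : ℤ) * (M i j : ℤ) ≤ if i = t then -1 else 0) :
    y t = 0 := by
  have d := dual y hb hs l
  have : ∑ i, y i * ((7 * ∑ j, (l j : ℤ) - 16 * ∑ j, (l j : ℤ) * (M i j : ℤ) : ℤ) : ℝ) ≤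
      ∑ i, y i * ((if i = t then -1 else 0 : ℤ) : ℝ) := by
    refine Finset.sum_le_sum fun i _ => ?_
    apply mul_le_mul_of_nonneg_left _ (hn i)
    exact_mod_cast h i
  have e : ∑ i, y i * ((if i = t then -1 else 0 : ℤ) : ℝ) = - y t := by
    simp
  rw [e] at this
  exact le_antisymm (by linarith) (hn t)

/-- In every Nash equilibrium the strategy of the defender is not Markovian. -/
lemma not_markov (xd xa : G.Path → ℝ) (h : G.IsNash xd xa) : ¬ G.IsMarkovian xd := by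
  rintro ⟨q, _, _, hq⟩
  have hb := bound xd xa h
  have hn : ∀ i, 0 ≤ xd (path i) := fun i => h.1.1 _
  have hs := h.1.2
  rw [sum_path] at hs
  have hq4 := hq (path 4)
  have hq6 := hq (path 6)
  have hq10 := hq (path 10)
  have hq12 := hq (path 12)
  have cross : xd (path 4) * xd (path 12) = xd (path 6) * xd (path 10) := by
    rw [hq4, hq6, hq10, hq12]
    change (∏ i : Fin 4, q (pl 4 i.castSucc) (pl 4 i.succ)) *
      (∏ i : Fin 4, q (pl 12 i.castSucc) (pl 12 i.succ)) =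
      (∏ i : Fin 4, q (pl 6 i.castSucc) (pl 6 i.succ)) *
      (∏ i : Fin 4, q (pl 10 i.castSucc) (pl 10 i.succ))
    simp only [Fin.prod_univ_four]
    change (q 0 1 * q 1 6 * q 6 7 * q 7 9) * (q 0 2 * q 2 6 * q 6 8 * q 8 9) =
      (q 0 1 * q 1 6 * q 6 8 * q 8 9) * (q 0 2 * q 2 6 * q 6 7 * q 7 9)
    ring
  have z4 : xd (path 4) = 0 := zero_of (fun i => xd (path i)) hb hn hs
    ![2, 0, 0, 0, 0, 0, 1, 1, 0, 0, 1, 1, 2, 2, 1, 3, 1, 1] 4 (by decide +kernel)
  have p6 : 0 < xd (path 6) := pos_of (fun i => xd (path i)) hb hn hs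
    ![21, 4, 0, 0, 0, 0, 10, 10, 7, 0, 9, 9, 17, 17, 9, 26, 10, 10] 6 (by decide +kernel)
  have p10 : 0 < xd (path 10) := pos_of (fun i => xd (path i)) hb hn hs
    ![19, 0, 0, 0, 0, 0, 2, 2, 7, 7, 6, 6, 9, 9, 15, 6, 2, 2] 10 (by decide +kernel)
  rw [z4, zero_mul] at cross
  have := mul_pos p6 p10
  linarith

/-- Q1 is false: there is a layered graph for which no Nash equilibrium of the game is
Markovian (Nash equilibria exist); in fact the strategy of the defender is not Markovian in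
any Nash equilibrium. -/
theorem result :
    ∃ (V : Type) (_ : Fintype V) (G : LayeredGraph V),
      (∃ xd xa : G.Path → ℝ, G.IsNash xd xa) ∧
      (∀ xd xa : G.Path → ℝ, G.IsNash xd xa → ¬ G.IsMarkovian xd) ∧
      ¬ ∃ xd xa : G.Path → ℝ, G.IsNash xd xa ∧ G.IsMarkovian xd ∧ G.IsMarkovian xa :=
  ⟨Fin 11, inferInstance, G, ⟨opt, att, nash⟩, not_markov,
    fun ⟨xd, xa, h, hd, _⟩ => not_markov xd xa h hd⟩

end Pool.Agent.Results.MP_41928e_lc.NoMarkovianNE
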